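import Mathlib

open Filter Topology

namespace Pool.Agent.Results.MP_735b88_an.NoRetract

/- The map `f` and its estimates are copied from the team's hand-in MP_8dfbdc_an.Cone. -/

abbrev X := Fin 3 → ℝ

noncomputable def g (x : X) : ℝ :=
  (x 2 + 51 / 500 * x 0 ^ 3) / (1 + (x 0 ^ 2 + x 1 ^ 2 + 2 * x 2 ^ 2))

noncomputable def f (x : X) : X := ![x 0, x 1, g x]

lemma key (x y z a b c : ℝ) (ha : |a| ≤ 1) (hb : |b| ≤ 1) (hc : |c| ≤ 1) :
    (c + 51 / 500 * (3 * x ^ 2 * a)) * (1 + (x ^ 2 + y ^ 2 + 2 * z ^ 2)) -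
      (z + 51 / 500 * x ^ 3) * (2 * x * a + 2 * y * b + 4 * z * c) ≤
    (1 + (x ^ 2 + y ^ 2 + 2 * z ^ 2)) ^ 2 := by
  have h : ∀ u v t : ℝ, |t| ≤ 1 → 2 * u * v * t ≤ u ^ 2 + v ^ 2 ∧ -(u ^ 2 + v ^ 2) ≤ 2 * u * v * t :=
    fun u v t ht => by
      rw [abs_le] at ht
      constructor <;>
      nlinarith [mul_nonneg (sub_nonneg.2 ht.2) (sq_nonneg (u + v)),
        mul_nonneg (sub_nonneg.2 ht.2) (sq_nonneg (u - v)),
        mul_nonneg (by linarith [ht.1] : 0 ≤ 1 + t) (sq_nonneg (u + v)),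
        mul_nonneg (by linarith [ht.1] : 0 ≤ 1 + t) (sq_nonneg (u - v))]
  set Q := x ^ 2 + y ^ 2 + 2 * z ^ 2 with hQ
  have hx : 0 ≤ x ^ 2 := sq_nonneg x
  have hy : 0 ≤ y ^ 2 := sq_nonneg y
  have hz : 0 ≤ z ^ 2 := sq_nonneg z
  have hxQ : x ^ 2 ≤ Q := by linarith
  have hQ0 : 0 ≤ Q := by linarith
  have ha' := abs_le.1 ha
  have hc' := abs_le.1 hc
  have h1 := (h (x / 2) (2 * z) a ha).2
  have h1' := (h x z a ha).2
  have h2 := (h y z b hb).2
  have h3 := (h x z c hc).2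
  have h4 := (h x y b hb).2
  have q1 : x ^ 2 * a * Q ≤ Q ^ 2 := by nlinarith [mul_nonneg hx hQ0]
  have q2 : -(x ^ 2 * (x ^ 2 * a)) ≤ Q ^ 2 := by nlinarith [mul_nonneg hx hx]
  have q3 : -(x ^ 2 * (2 * x * y * b)) ≤ Q ^ 2 := by nlinarith [mul_nonneg hx hz]
  have q4 : -(x ^ 2 * (2 * x * z * c)) ≤ Q ^ 2 := by nlinarith [mul_nonneg hx hz, mul_nonneg hx hy]
  have q5 : x ^ 2 * a ≤ x ^ 2 := by nlinarith
  have lin : c * (1 + Q - 4 * z ^ 2) + 153 / 500 * (x ^ 2 * a) - 2 * x * z * a - 2 * y * z * b ≤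
      1 + 2 * Q := by
    rcases le_total 0 (1 + Q - 4 * z ^ 2) with h5 | h5
    · nlinarith [mul_nonneg h5 (sub_nonneg.2 hc'.2)]
    · nlinarith [mul_nonneg (neg_nonneg.2 h5) (by linarith [hc'.1] : 0 ≤ 1 + c)]
  nlinarith [sq_nonneg Q]

lemma g_lip (p q : X) : |g p - g q| ≤ ‖p - q‖ := by
  rcases eq_or_ne p q with rfl | hpq
  · simp
  have hr : 0 < ‖p - q‖ := norm_pos_iff.2 (sub_ne_zero.2 hpq)
  set r := ‖p - q‖
  have hd : ∀ i, |(p i - q i) / r| ≤ 1 := fun i => by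
    rw [abs_div, abs_of_pos hr, div_le_one hr]; exact norm_le_pi_norm (p - q) i
  set a := (p 0 - q 0) / r
  set b := (p 1 - q 1) / r
  set c := (p 2 - q 2) / r
  have L : ∀ u v t : ℝ, HasDerivAt (fun t : ℝ => u + v * t) v t := fun u v t => by
    simpa using ((hasDerivAt_id' t).const_mul v).const_add u
  have := Convex.norm_image_sub_le_of_norm_hasDerivWithin_le (C := 1) (s := Set.univ)
    (f := fun t : ℝ => ((q 2 + c * t) + 51 / 500 * (q 0 + a * t) ^ 3) /
      (1 + ((q 0 + a * t) ^ 2 + (q 1 + b * t) ^ 2 + 2 * (q 2 + c * t) ^ 2)))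
    (fun t _ => (((L (q 2) c t).fun_add (((L (q 0) a t).fun_pow 3).const_mul _)).fun_div
      (((((L (q 0) a t).fun_pow 2).fun_add ((L (q 1) b t).fun_pow 2)).fun_add
        (((L (q 2) c t).fun_pow 2).const_mul 2)).const_add 1) (by positivity)).hasDerivWithinAt)
    (fun t _ => by
      have k1 := key (q 0 + a * t) (q 1 + b * t) (q 2 + c * t) a b c (hd 0) (hd 1) (hd 2)
      have k2 := key (q 0 + a * t) (q 1 + b * t) (q 2 + c * t) (-a) (-b) (-c)
        (by simpa using hd 0) (by simpa using hd 1) (by simpa using hd 2)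
      rw [Real.norm_eq_abs, abs_div, abs_of_pos (a := _ ^ 2) (by positivity),
        div_le_one (by positivity), abs_le]
      simp only [Nat.cast_ofNat, Nat.add_one_sub_one, pow_one]
      constructor <;> linarith)
    convex_univ (Set.mem_univ 0) (Set.mem_univ r)
  have e : ∀ i, q i + (p i - q i) / r * r = p i := fun i => by field_simp; ring
  simp only [a, b, c, e, mul_zero, add_zero, sub_zero, one_mul, Real.norm_eq_abs,
    abs_of_pos hr] at this
  exact this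

def M : Set X := {x | x 2 * (x 0 ^ 2 + x 1 ^ 2 + 2 * x 2 ^ 2) = 51 / 500 * x 0 ^ 3}

lemma fix_eq : {x | f x = x} = M := by
  ext x
  have : f x = x ↔ g x = x 2 := by
    constructor
    · intro h; simpa [f] using congrFun h 2
    · intro h; ext i; fin_cases i <;> simp [f, h]
  simp only [Set.mem_setOf_eq, this, M, g]
  rw [div_eq_iff (by positivity)]
  constructor <;> intro h <;> linarith

lemma M_smul (t : ℝ) (ht : t ≠ 0) (x : X) : t • x ∈ M ↔ x ∈ M := by
  simp only [M, Set.mem_setOf_eq, Pi.smul_apply, smul_eq_mul]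
  constructor <;> intro h
  · exact mul_left_cancel₀ (pow_ne_zero 3 ht) (by linarith)
  · linear_combination t ^ 3 * h

lemma tangent {φ : X → X} {D : X →L[ℝ] X} {p : X} (hφ : HasFDerivAt φ D p) (S : Set X)
    (hS : IsClosed S) (hs : ∀ t : ℝ, t ≠ 0 → ∀ x ∈ S, t • x ∈ S) (v : X)
    (h : ∀ᶠ t : ℝ in 𝓝 0, φ (p + t • v) - φ p ∈ S) : D v ∈ S := by
  have h1 : HasDerivAt (fun t : ℝ => φ (p + t • v)) (D v) 0 := by
    have hl : HasDerivAt (fun t : ℝ => p + t • v) v 0 := by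
      simpa using ((hasDerivAt_id' (0 : ℝ)).smul_const v).const_add p
    exact HasFDerivAt.comp_hasDerivAt (l := φ) (f := fun t : ℝ => p + t • v) 0 (by rwa [zero_smul, add_zero]) hl
  refine hS.mem_of_tendsto (hasDerivAt_iff_tendsto_slope_zero.1 h1) ?_
  filter_upwards [self_mem_nhdsWithin, mem_nhdsWithin_of_mem_nhds h] with t ht h2
  simpa using hs t⁻¹ (inv_ne_zero ht) _ h2

lemma no_retract (r : X → X) (h1 : Set.range r = M) (h2 : ∀ a ∈ M, r a = a) :
    ¬ DifferentiableAt ℝ r 0 := fun hd => by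
  have d := hd.hasFDerivAt
  set D := fderiv ℝ r 0
  have hMc : IsClosed M := isClosed_eq (by fun_prop) (by fun_prop)
  have hM0 : (0 : X) ∈ M := by simp [M]
  have hA : ∀ v, D v ∈ M := fun v =>
    tangent d M hMc (fun t ht x hx => (M_smul t ht x).2 hx) v (Eventually.of_forall fun t => by
      rw [h2 0 hM0, sub_zero, ← h1]
      exact Set.mem_range_self _)
  have hB : ∀ v ∈ M, D v = v := fun v hv => by
    have hl : HasDerivAt (fun t : ℝ => t • v) v 0 := by
      simpa using (hasDerivAt_id' (0 : ℝ)).smul_const v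
    have h3 : HasDerivAt (fun t : ℝ => r (t • v)) (D v) 0 :=
      HasFDerivAt.comp_hasDerivAt (l := r) (f := fun t : ℝ => t • v) 0 (by rwa [zero_smul]) hl
    refine h3.unique (hl.congr_of_eventuallyEq (Eventually.of_forall fun t => h2 _ ?_))
    rcases eq_or_ne t 0 with rfl | h
    · simpa using hM0
    · exact (M_smul t h v).2 hv
  have h3 := hA (![0, 1, 0] + ![1, 0, 1 / 10])
  rw [map_add, hB ![0, 1, 0] (by simp [M]), hB ![1, 0, 1 / 10] (by simp [M]; norm_num)] at h3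
  simp [M] at h3
  norm_num at h3

theorem result : ∃ (n : ℕ) (f : (Fin n → ℝ) → (Fin n → ℝ)),
    (∀ x y, ‖f x - f y‖ ≤ ‖x - y‖) ∧ AnalyticOnNhd ℝ f Set.univ ∧
    (∃ p, f p = p) ∧ ¬ ∃ r : (Fin n → ℝ) → (Fin n → ℝ), Set.range r = {x | f x = x} ∧
      (∀ a, f a = a → r a = a) ∧ Differentiable ℝ r := by
  refine ⟨3, f, fun x y => ?_, ?_, ⟨0, ?_⟩, fun ⟨r, h1, h2, h3⟩ =>
    no_retract r (h1.trans fix_eq) (fun a ha => h2 a (fix_eq ▸ ha : a ∈ {x | f x = x})) (h3 0)⟩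
  · refine (pi_norm_le_iff_of_nonneg (norm_nonneg _)).2 fun i => ?_
    fin_cases i
    · exact norm_le_pi_norm (x - y) 0
    · exact norm_le_pi_norm (x - y) 1
    · exact g_lip x y
  · intro x _
    have hp : ∀ i, AnalyticAt ℝ (fun y : X => y i) x := fun i =>
      (ContinuousLinearMap.proj (R := ℝ) (φ := fun _ : Fin 3 => ℝ) i).analyticAt x
    refine analyticAt_pi_iff.2 fun i => ?_
    fin_cases i
    · exact hp 0
    · exact hp 1
    · refine AnalyticAt.fun_div ((hp 2).add (analyticAt_const.mul ((hp 0).pow 3)))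
        (analyticAt_const.add ((((hp 0).pow 2).add ((hp 1).pow 2)).add
          (analyticAt_const.mul ((hp 2).pow 2)))) ?_
      show (1 : ℝ) + (x 0 ^ 2 + x 1 ^ 2 + 2 * x 2 ^ 2) ≠ 0
      positivity
  · have : (0 : X) ∈ {x | f x = x} := by rw [fix_eq]; simp [M]
    exact this

end Pool.Agent.Results.MP_735b88_an.NoRetract
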